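import Pool.Agent.Lib.MP_226de1_co.K.GeoW1

/-! The limit `s → 1+` of the weighted area identity.  If `ρ₁, ρ₂ : ℝ → (0, c)` are continuous and the
integrals of `|sin|^(s-2) (ρᵢ^s + (c-ρᵢ)^s)` over `(-π, π)` agree for all `1 < s < 2`, then
`ρᵢ log ρᵢ + (c - ρᵢ) log (c - ρᵢ)` agree at `0` (if `ρᵢ(±π) = c - ρᵢ(0)`). -/

set_option autoImplicit false

namespace EQN

open Set Filter Topology MeasureTheory

/-- `x log x` -/
noncomputable def fl (x : ℝ) : ℝ := x * Real.log x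

theorem fl_continuous : Continuous fl := Real.continuous_mul_log

/-- `x^(1+σ) - x - σ x log x` is of second order -/
theorem fl_approx {x c L σ : ℝ} (hx : 0 < x) (hxc : x ≤ c) (hL : |Real.log x| ≤ L)
    (hσ : 0 ≤ σ) (hσL : σ * L ≤ 1) : |x ^ (1 + σ) - x - σ * fl x| ≤ c * L ^ 2 * σ ^ 2 := by
  have hL0 : 0 ≤ L := (abs_nonneg _).trans hL
  have e : x ^ (1 + σ) = x * Real.exp (σ * Real.log x) := by
    rw [Real.rpow_add hx, Real.rpow_one, Real.rpow_def_of_pos hx, mul_comm (Real.log x)]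
  have hu : |σ * Real.log x| ≤ 1 := by
    rw [abs_mul, abs_of_nonneg hσ]
    exact (mul_le_mul_of_nonneg_left hL hσ).trans hσL
  have h1 := Real.abs_exp_sub_one_sub_id_le hu
  have e2 : x ^ (1 + σ) - x - σ * fl x =
      x * (Real.exp (σ * Real.log x) - 1 - σ * Real.log x) := by
    rw [e]
    unfold fl
    ring
  rw [e2, abs_mul, abs_of_pos hx]
  have h2 : (σ * Real.log x) ^ 2 ≤ L ^ 2 * σ ^ 2 := by
    rw [mul_pow, mul_comm (L ^ 2)]
    refine mul_le_mul_of_nonneg_left ?_ (sq_nonneg _)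
    rw [← sq_abs]
    exact pow_le_pow_left₀ (abs_nonneg _) hL 2
  calc x * |Real.exp (σ * Real.log x) - 1 - σ * Real.log x| ≤ x * (L ^ 2 * σ ^ 2) :=
        mul_le_mul_of_nonneg_left (h1.trans h2) hx.le
    _ ≤ c * (L ^ 2 * σ ^ 2) := mul_le_mul_of_nonneg_right hxc (by positivity)
    _ = c * L ^ 2 * σ ^ 2 := by ring

/-- the weight is integrable -/
theorem sin_integrable {s : ℝ} (hs : 1 < s) :
    IntegrableOn (fun θ : ℝ => |Real.sin θ| ^ (s - 2)) (Ioo (-Real.pi) Real.pi) := by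
  have hm : Measurable (fun θ : ℝ => |Real.sin θ| ^ (s - 2)) :=
    (continuous_abs.measurable.comp Real.measurable_sin).pow_const _
  refine ⟨hm.aestronglyMeasurable, ?_⟩
  rw [hasFiniteIntegral_iff_ofReal (Eventually.of_forall fun θ => by positivity)]
  exact (EQK.sin_lint hs).2

variable {ρ₁ ρ₂ : ℝ → ℝ} {c : ℝ}

theorem sum_integrable {s : ℝ} (hs : 1 < s) {ρ : ℝ → ℝ} (hρ : Continuous ρ)
    (h0 : ∀ θ, 0 < ρ θ) (h1 : ∀ θ, ρ θ < c) :
    IntegrableOn (fun θ : ℝ => |Real.sin θ| ^ (s - 2) * (ρ θ ^ s + (c - ρ θ) ^ s))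
      (Ioo (-Real.pi) Real.pi) := by
  have hm : Measurable (fun θ : ℝ => |Real.sin θ| ^ (s - 2)) :=
    (continuous_abs.measurable.comp Real.measurable_sin).pow_const _
  have hm2 : Measurable (fun θ : ℝ => ρ θ ^ s + (c - ρ θ) ^ s) :=
    (hρ.measurable.pow_const _).add ((hρ.measurable.const_sub _).pow_const _)
  have hi := (sin_integrable hs).mul_const (2 * c ^ s)
  refine Integrable.mono' hi (hm.mul hm2).aestronglyMeasurable (Eventually.of_forall fun θ => ?_)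
  have p0 := h0 θ
  have p1 := h1 θ
  have q1 : 0 < c - ρ θ := by linarith
  rw [Real.norm_of_nonneg (by positivity)]
  refine mul_le_mul_of_nonneg_left ?_ (by positivity)
  have e1 : ρ θ ^ s ≤ c ^ s := Real.rpow_le_rpow p0.le p1.le (by linarith)
  have e2 : (c - ρ θ) ^ s ≤ c ^ s := Real.rpow_le_rpow q1.le (by linarith) (by linarith)
  linarith

/-- `∫_0^δ |sin|^(σ-1) ≥ δ / σ` for `0 < δ ≤ 1`, `0 < σ < 1` -/
theorem near_bound {σ δ : ℝ} (hσ : 0 < σ) (hσ1 : σ < 1) (hδ : 0 < δ) (hδ1 : δ ≤ 1) :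
    δ / σ ≤ ∫ θ in Ioo 0 δ, |Real.sin θ| ^ (1 + σ - 2) := by
  have hpi := Real.pi_gt_three
  have h1 : ∫ θ in Ioo 0 δ, θ ^ (σ - 1) = δ ^ σ / σ := by
    rw [← integral_Ioc_eq_integral_Ioo, ← intervalIntegral.integral_of_le hδ.le,
      integral_rpow (Or.inl (by linarith))]
    rw [sub_add_cancel, Real.zero_rpow hσ.ne', sub_zero]
  have h2 : δ ≤ δ ^ σ := by
    have := Real.rpow_le_rpow_of_exponent_ge hδ hδ1 hσ1.le
    rwa [Real.rpow_one] at this
  calc δ / σ ≤ δ ^ σ / σ := by gcongr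
    _ = ∫ θ in Ioo 0 δ, θ ^ (σ - 1) := h1.symm
    _ ≤ ∫ θ in Ioo 0 δ, |Real.sin θ| ^ (1 + σ - 2) := by
        refine setIntegral_mono_on ?_ ?_ measurableSet_Ioo ?_
        · have : IntervalIntegrable (fun r : ℝ => r ^ (σ - 1)) volume 0 δ :=
            intervalIntegral.intervalIntegrable_rpow' (by linarith)
          exact (intervalIntegrable_iff_integrableOn_Ioo_of_le hδ.le).mp this
        · exact (sin_integrable (by linarith)).mono_set
            (Ioo_subset_Ioo (by linarith) (by linarith))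
        · intro θ hθ
          have h0 : 0 < θ := hθ.1
          have h3 : 0 < Real.sin θ := Real.sin_pos_of_pos_of_lt_pi h0 (by linarith [hθ.2])
          rw [abs_of_pos h3]
          have e : 1 + σ - 2 = σ - 1 := by ring
          rw [e]
          exact Real.rpow_le_rpow_of_nonpos h3 (Real.sin_le h0.le) (by linarith)

/-- the comparison at `0` -/
theorem area_le (hρ₁ : Continuous ρ₁) (hρ₂ : Continuous ρ₂)
    (p₁ : ∀ θ, 0 < ρ₁ θ) (q₁ : ∀ θ, ρ₁ θ < c) (p₂ : ∀ θ, 0 < ρ₂ θ) (q₂ : ∀ θ, ρ₂ θ < c)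
    (hπ₁ : ρ₁ Real.pi = c - ρ₁ 0) (hπ₂ : ρ₂ Real.pi = c - ρ₂ 0)
    (hm₁ : ρ₁ (-Real.pi) = c - ρ₁ 0) (hm₂ : ρ₂ (-Real.pi) = c - ρ₂ 0)
    (hint : ∀ s : ℝ, 1 < s → s < 2 →
      ∫ θ in Ioo (-Real.pi) Real.pi, |Real.sin θ| ^ (s - 2) * (ρ₁ θ ^ s + (c - ρ₁ θ) ^ s) =
      ∫ θ in Ioo (-Real.pi) Real.pi, |Real.sin θ| ^ (s - 2) * (ρ₂ θ ^ s + (c - ρ₂ θ) ^ s)) :
    fl (ρ₁ 0) + fl (c - ρ₁ 0) ≤ fl (ρ₂ 0) + fl (c - ρ₂ 0) := by
  by_contra hcon
  rw [not_le] at hcon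
  have hpi := Real.pi_gt_three
  have hpi0 := Real.pi_pos
  obtain ⟨G, hG⟩ : ∃ G : ℝ → ℝ, G = fun θ =>
    fl (ρ₁ θ) + fl (c - ρ₁ θ) - (fl (ρ₂ θ) + fl (c - ρ₂ θ)) := ⟨_, rfl⟩
  have hGc : Continuous G := by
    rw [hG]
    exact ((fl_continuous.comp hρ₁).add (fl_continuous.comp (continuous_const.sub hρ₁))).sub
      ((fl_continuous.comp hρ₂).add (fl_continuous.comp (continuous_const.sub hρ₂)))
  have hG0 : 0 < G 0 := by rw [hG]; simp only; linarith
  have hGπ : G Real.pi = G 0 := by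
    rw [hG]
    simp only
    rw [hπ₁, hπ₂, sub_sub_cancel, sub_sub_cancel]
    ring
  have hGm : G (-Real.pi) = G 0 := by
    rw [hG]
    simp only
    rw [hm₁, hm₂, sub_sub_cancel, sub_sub_cancel]
    ring
  -- bounds
  have hlog : ∀ ρ : ℝ → ℝ, Continuous ρ → (∀ θ, 0 < ρ θ) →
      ∃ L : ℝ, ∀ θ ∈ Icc (-Real.pi) Real.pi, |Real.log (ρ θ)| ≤ L := by
    intro ρ hρ hp
    have h1 : ContinuousOn (fun θ => Real.log (ρ θ)) (Icc (-Real.pi) Real.pi) :=
      (hρ.log fun θ => (hp θ).ne').continuousOn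
    obtain ⟨L, hL⟩ := isCompact_Icc.exists_bound_of_continuousOn h1
    exact ⟨L, fun θ hθ => by simpa [Real.norm_eq_abs] using hL θ hθ⟩
  obtain ⟨L1, hL1⟩ := hlog ρ₁ hρ₁ p₁
  obtain ⟨L2, hL2⟩ := hlog (fun θ => c - ρ₁ θ) (continuous_const.sub hρ₁)
    (fun θ => by have := q₁ θ; linarith)
  obtain ⟨L3, hL3⟩ := hlog ρ₂ hρ₂ p₂
  obtain ⟨L4, hL4⟩ := hlog (fun θ => c - ρ₂ θ) (continuous_const.sub hρ₂)
    (fun θ => by have := q₂ θ; linarith)
  obtain ⟨L, hLdef⟩ : ∃ L : ℝ, L = max (max L1 L2) (max (max L3 L4) 1) := ⟨_, rfl⟩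
  have hLL1 : L1 ≤ L := by rw [hLdef]; exact (le_max_left _ _).trans (le_max_left _ _)
  have hLL2 : L2 ≤ L := by rw [hLdef]; exact (le_max_right _ _).trans (le_max_left _ _)
  have hLL3 : L3 ≤ L := by
    rw [hLdef]; exact ((le_max_left _ _).trans (le_max_left _ _)).trans (le_max_right _ _)
  have hLL4 : L4 ≤ L := by
    rw [hLdef]; exact ((le_max_right _ _).trans (le_max_left _ _)).trans (le_max_right _ _)
  have hL1' : 1 ≤ L := by
    rw [hLdef]; exact (le_max_right _ _).trans (le_max_right _ _)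
  have hL0 : 0 < L := by linarith
  have hc0 : 0 < c := (p₁ 0).trans (q₁ 0)
  obtain ⟨M, hM⟩ := isCompact_Icc.exists_bound_of_continuousOn
    (hGc.continuousOn (s := Icc (-Real.pi) Real.pi))
  have hM' : ∀ θ ∈ Icc (-Real.pi) Real.pi, |G θ| ≤ M := fun θ hθ => by
    simpa [Real.norm_eq_abs] using hM θ hθ
  have hM0 : 0 ≤ M := (abs_nonneg _).trans (hM' 0 ⟨by linarith, hpi0.le⟩)
  obtain ⟨η, hη⟩ : ∃ η : ℝ, η = G 0 / 4 := ⟨_, rfl⟩
  have hη0 : 0 < η := by rw [hη]; positivity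
  have hη2 : 2 * η < G 0 := by rw [hη]; linarith
  -- the complement of `U = {2 η < G}`
  have hKc : IsCompact (Icc (-Real.pi) Real.pi ∩ {θ | G θ ≤ 2 * η}) :=
    isCompact_Icc.inter_right (isClosed_le hGc continuous_const)
  have hsin : ∀ θ ∈ Icc (-Real.pi) Real.pi ∩ {θ | G θ ≤ 2 * η}, Real.sin θ ≠ 0 := by
    rintro θ ⟨⟨h1, h2⟩, h3⟩ h4
    have h3' : G θ ≤ 2 * η := h3
    rcases lt_trichotomy θ 0 with h5 | h5 | h5
    · rcases h1.lt_or_eq with h6 | h6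
      · exact (Real.sin_neg_of_neg_of_neg_pi_lt h5 h6).ne h4
      · rw [← h6, hGm] at h3'
        linarith
    · rw [h5] at h3'
      linarith
    · rcases h2.lt_or_eq with h6 | h6
      · exact (Real.sin_pos_of_pos_of_lt_pi h5 h6).ne' h4
      · rw [h6, hGπ] at h3'
        linarith
  obtain ⟨B₀, hB₀⟩ := hKc.exists_bound_of_continuousOn (f := fun θ => (|Real.sin θ|)⁻¹)
    ((Real.continuous_sin.abs.continuousOn).inv₀ fun θ hθ => (abs_pos.2 (hsin θ hθ)).ne')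
  obtain ⟨B, hBdef⟩ : ∃ B : ℝ, B = max B₀ 1 := ⟨_, rfl⟩
  have hB1 : 1 ≤ B := by rw [hBdef]; exact le_max_right _ _
  have hBb : ∀ θ ∈ Icc (-Real.pi) Real.pi ∩ {θ | G θ ≤ 2 * η}, (|Real.sin θ|)⁻¹ ≤ B := by
    intro θ hθ
    have h1 := hB₀ θ hθ
    rw [Real.norm_of_nonneg (by positivity)] at h1
    rw [hBdef]
    exact h1.trans (le_max_left _ _)
  -- a neighbourhood of `0`
  obtain ⟨δ₀, hδ₀, hδ₀b⟩ := Metric.eventually_nhds_iff.1 (hGc.continuousAt.eventually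
    (lt_mem_nhds hη2))
  obtain ⟨δ, hδdef⟩ : ∃ δ : ℝ, δ = min δ₀ 1 := ⟨_, rfl⟩
  have hδ0 : 0 < δ := by rw [hδdef]; exact lt_min hδ₀ one_pos
  have hδ1 : δ ≤ 1 := by rw [hδdef]; exact min_le_right _ _
  have hδG : ∀ θ ∈ Ioo 0 δ, 2 * η < G θ := by
    intro θ hθ
    refine hδ₀b ?_
    rw [Real.dist_eq, sub_zero, abs_of_pos hθ.1]
    have : δ ≤ δ₀ := by rw [hδdef]; exact min_le_left _ _
    linarith [hθ.2]
  -- the exponent
  obtain ⟨A, hA⟩ : ∃ A : ℝ, A = 4 * (c * L ^ 2) / η + L + 2 + 2 * Real.pi * (M + η) * B / (η * δ) :=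
    ⟨_, rfl⟩
  have hA0 : 0 < A := by rw [hA]; positivity
  obtain ⟨σ, hσdef⟩ : ∃ σ : ℝ, σ = 1 / (2 * A) := ⟨_, rfl⟩
  have hσ0 : 0 < σ := by rw [hσdef]; positivity
  have hσA : σ * A = 1 / 2 := by rw [hσdef]; field_simp
  have hA1 : 4 * (c * L ^ 2) / η ≤ A := by
    rw [hA]
    have h1 : 0 ≤ 2 * Real.pi * (M + η) * B / (η * δ) := by positivity
    linarith
  have hA2 : L ≤ A := by
    rw [hA]
    have h1 : 0 ≤ 2 * Real.pi * (M + η) * B / (η * δ) := by positivity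
    have h2 : 0 ≤ 4 * (c * L ^ 2) / η := by positivity
    linarith
  have hA3 : 2 ≤ A := by
    rw [hA]
    have h1 : 0 ≤ 2 * Real.pi * (M + η) * B / (η * δ) := by positivity
    have h2 : 0 ≤ 4 * (c * L ^ 2) / η := by positivity
    linarith
  have hA4 : 2 * Real.pi * (M + η) * B / (η * δ) ≤ A := by
    rw [hA]
    have h2 : 0 ≤ 4 * (c * L ^ 2) / η := by positivity
    linarith
  have hσ1 : σ < 1 := by nlinarith
  have hσL : σ * L ≤ 1 := by
    have := mul_le_mul_of_nonneg_left hA2 hσ0.le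
    linarith
  have hσc : 4 * (c * L ^ 2) * σ ≤ η := by
    rw [div_le_iff₀ hη0] at hA1
    have h1 := mul_le_mul_of_nonneg_left hA1 hσ0.le
    have h2 : σ * (A * η) = (σ * A) * η := by ring
    rw [h2, hσA] at h1
    linarith
  have hσf : 2 * Real.pi * (M + η) * B * σ < η * δ := by
    rw [div_le_iff₀ (by positivity)] at hA4
    have h1 := mul_le_mul_of_nonneg_left hA4 hσ0.le
    have h2 : σ * (A * (η * δ)) = (σ * A) * (η * δ) := by ring
    rw [h2, hσA] at h1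
    have h3 : 0 < η * δ := by positivity
    linarith
  -- the second order estimate
  have hT : ∀ θ ∈ Icc (-Real.pi) Real.pi,
      |(ρ₁ θ ^ (1 + σ) + (c - ρ₁ θ) ^ (1 + σ)) - (ρ₂ θ ^ (1 + σ) + (c - ρ₂ θ) ^ (1 + σ)) - σ * G θ| ≤
        η * σ := by
    intro θ hθ
    have a1 := fl_approx (p₁ θ) (q₁ θ).le ((hL1 θ hθ).trans hLL1) hσ0.le hσL
    have a2 := fl_approx (x := c - ρ₁ θ) (c := c) (by have := q₁ θ; linarith)
      (by have := p₁ θ; linarith) ((hL2 θ hθ).trans hLL2) hσ0.le hσL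
    have a3 := fl_approx (p₂ θ) (q₂ θ).le ((hL3 θ hθ).trans hLL3) hσ0.le hσL
    have a4 := fl_approx (x := c - ρ₂ θ) (c := c) (by have := q₂ θ; linarith)
      (by have := p₂ θ; linarith) ((hL4 θ hθ).trans hLL4) hσ0.le hσL
    have h1 : 4 * (c * L ^ 2 * σ ^ 2) ≤ η * σ := by
      have := mul_le_mul_of_nonneg_right hσc hσ0.le
      calc 4 * (c * L ^ 2 * σ ^ 2) = 4 * (c * L ^ 2) * σ * σ := by ring
        _ ≤ η * σ := this
    rw [abs_le] at a1 a2 a3 a4 ⊢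
    rw [hG]
    simp only
    constructor <;> linarith
  -- the pointwise lower bound
  have hpt : ∀ θ ∈ Ioo (-Real.pi) Real.pi,
      σ * (η * (Ioo 0 δ).indicator (fun θ => |Real.sin θ| ^ (1 + σ - 2)) θ - (M + η) * B) ≤
      |Real.sin θ| ^ (1 + σ - 2) * (ρ₁ θ ^ (1 + σ) + (c - ρ₁ θ) ^ (1 + σ)) -
        |Real.sin θ| ^ (1 + σ - 2) * (ρ₂ θ ^ (1 + σ) + (c - ρ₂ θ) ^ (1 + σ)) := by
    intro θ hθ
    have hθ' : θ ∈ Icc (-Real.pi) Real.pi := Ioo_subset_Icc_self hθ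
    have h1 := hT θ hθ'
    have h2 := hM' θ hθ'
    have hw : 0 ≤ |Real.sin θ| ^ (1 + σ - 2) := by positivity
    rw [← mul_sub]
    set w := |Real.sin θ| ^ (1 + σ - 2) with hwdef
    set T := (ρ₁ θ ^ (1 + σ) + (c - ρ₁ θ) ^ (1 + σ)) - (ρ₂ θ ^ (1 + σ) + (c - ρ₂ θ) ^ (1 + σ)) with hTdef
    have hMB : 0 ≤ (M + η) * B := by positivity
    rw [abs_le] at h1 h2
    by_cases hU : 2 * η < G θ
    · have h3 : η * σ ≤ T := by
        have h4 := mul_lt_mul_of_pos_left hU hσ0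
        linarith [h1.1]
      have h5 : (Ioo 0 δ).indicator (fun θ => |Real.sin θ| ^ (1 + σ - 2)) θ ≤ w := by
        by_cases h6 : θ ∈ Ioo 0 δ
        · rw [indicator_of_mem h6]
        · rw [indicator_of_notMem h6]
          exact hw
      have h7 := mul_le_mul_of_nonneg_left h3 hw
      have h8 := mul_le_mul_of_nonneg_left h5 (mul_nonneg hη0.le hσ0.le)
      have h9 : 0 ≤ σ * ((M + η) * B) := by positivity
      linarith
    · rw [not_lt] at hU
      have h6 : θ ∉ Ioo 0 δ := fun h7 => absurd (hδG θ h7) (not_lt.2 hU)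
      rw [indicator_of_notMem h6]
      have h7 : -(σ * (M + η)) ≤ T := by
        have h8 := mul_le_mul_of_nonneg_left h2.1 hσ0.le
        linarith [h1.1]
      have h9 := hBb θ ⟨hθ', hU⟩
      have hs0 : 0 < |Real.sin θ| := abs_pos.2 (hsin θ ⟨hθ', hU⟩)
      have h10 : w ≤ (|Real.sin θ|)⁻¹ := by
        rw [hwdef, ← Real.rpow_neg_one]
        exact Real.rpow_le_rpow_of_exponent_ge hs0 (Real.abs_sin_le_one θ) (by linarith)
      have h11 : w ≤ B := h10.trans h9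
      have h12 : w * (-(σ * (M + η))) ≤ w * T := mul_le_mul_of_nonneg_left h7 hw
      have h13 : w * (σ * (M + η)) ≤ B * (σ * (M + η)) :=
        mul_le_mul_of_nonneg_right h11 (by positivity)
      linarith
  -- integrate
  have hs1 : 1 < 1 + σ := by linarith
  have i1 := sum_integrable (c := c) hs1 hρ₁ p₁ q₁
  have i2 := sum_integrable (c := c) hs1 hρ₂ p₂ q₂
  have iw := sin_integrable hs1
  have hsub : Ioo 0 δ ⊆ Ioo (-Real.pi) Real.pi := Ioo_subset_Ioo (by linarith) (by linarith)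
  have i3 : IntegrableOn ((Ioo 0 δ).indicator (fun θ => |Real.sin θ| ^ (1 + σ - 2)))
      (Ioo (-Real.pi) Real.pi) := iw.indicator measurableSet_Ioo
  have i4 : IntegrableOn (fun _ : ℝ => (M + η) * B) (Ioo (-Real.pi) Real.pi) :=
    integrableOn_const (by simp)
  have hmono := setIntegral_mono_on (((i3.const_mul η).sub i4).const_mul σ) (i1.sub i2)
    measurableSet_Ioo hpt
  have hzero : ∫ θ in Ioo (-Real.pi) Real.pi,
      (|Real.sin θ| ^ (1 + σ - 2) * (ρ₁ θ ^ (1 + σ) + (c - ρ₁ θ) ^ (1 + σ)) -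
        |Real.sin θ| ^ (1 + σ - 2) * (ρ₂ θ ^ (1 + σ) + (c - ρ₂ θ) ^ (1 + σ))) = 0 := by
    rw [integral_sub i1 i2, hint (1 + σ) hs1 (by linarith), sub_self]
  have hlow : ∫ θ in Ioo (-Real.pi) Real.pi,
      σ * (η * (Ioo 0 δ).indicator (fun θ => |Real.sin θ| ^ (1 + σ - 2)) θ - (M + η) * B) =
      σ * (η * (∫ θ in Ioo 0 δ, |Real.sin θ| ^ (1 + σ - 2)) - 2 * Real.pi * ((M + η) * B)) := by
    rw [integral_const_mul, integral_sub (i3.const_mul η) i4, integral_const_mul,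
      setIntegral_indicator measurableSet_Ioo, inter_eq_right.2 hsub, setIntegral_const]
    congr 2
    rw [measureReal_def, Real.volume_Ioo, ENNReal.toReal_ofReal (by linarith), smul_eq_mul]
    ring
  have hnear := near_bound hσ0 hσ1 hδ0 hδ1
  have hfin : σ * (η * (∫ θ in Ioo 0 δ, |Real.sin θ| ^ (1 + σ - 2)) -
      2 * Real.pi * ((M + η) * B)) ≤ 0 := by
    have h0 := hmono
    simp only [Pi.sub_apply] at h0
    rw [hlow, hzero] at h0
    exact h0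
  have h1 := mul_le_mul_of_nonneg_left hnear (mul_nonneg hσ0.le hη0.le)
  have h2 : σ * η * (δ / σ) = η * δ := by field_simp
  rw [h2] at h1
  linarith

end EQN
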