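import Pool.Agent.Lib.MP_226de1_co.E1.Neutral
import Pool.Agent.Lib.MP_226de1_co.K.NSreal

/-! The step near the saddle `(1,0)` for `k ≥ 1` is a map of type `NN`.  For `k > 1` this follows from
`EQK.NS_TT`.  For `k = 1` the first coordinate of the step has derivative
`-1 + (lam + 1) Y² / R` in the first direction, of modulus at most one near the saddle. -/

set_option autoImplicit false

namespace EQN

open Set Filter Topology
open EQK (Bx NS TT lam RR Dm cc)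

private theorem nnr_Dm_one {μ : ℝ} (hμ : 1 < μ) : Dm 1 μ 1 := by
  refine ⟨one_pos, ?_⟩
  rw [Real.one_rpow]
  unfold cc
  rw [Real.rpow_one]
  linarith

private theorem nnr_lam_one {k μ : ℝ} (hk : 0 < k) (hμ : 1 < μ) : lam k μ 1 = μ := by
  unfold lam cc
  rw [Real.one_rpow, mul_one, add_sub_cancel_left, ← Real.rpow_mul (by linarith),
    mul_one_div_cancel hk.ne', Real.rpow_one]

/-- the saddle is fixed -/
private theorem nnr_fix {k μ : ℝ} (hk : 0 < k) (hμ : 1 < μ) : (TT k μ (1, 0)).1 = 1 := by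
  have e : RR ((1 : ℝ), (0 : ℝ)) = 1 := by unfold RR; norm_num
  unfold TT
  rw [e, nnr_lam_one hk hμ]
  ring

private theorem nnr_local {μ : ℝ} (hμ : 1 < μ) {τ : ℝ} (hτ : 0 < τ) :
    ∃ η > 0, η ≤ 1 / 2 ∧ ∀ R, |R - 1| ≤ η → Dm 1 μ R ∧ |lam 1 μ R - μ| ≤ τ := by
  have hd1 := nnr_Dm_one hμ
  have hl1 := nnr_lam_one one_pos hμ
  have hc : ContinuousAt (lam 1 μ) 1 := EQK.lam_continuousAt one_pos hd1
  have hDm : ∀ᶠ R in 𝓝 (1 : ℝ), Dm 1 μ R := by
    have h1 : ∀ᶠ R in 𝓝 (1 : ℝ), 0 < R := lt_mem_nhds one_pos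
    have h2 : ContinuousAt (fun R : ℝ => R ^ ((1 : ℝ) / 2)) 1 :=
      Real.continuousAt_rpow_const 1 (1 / 2) (Or.inl one_ne_zero)
    have h3 : ∀ᶠ R in 𝓝 (1 : ℝ), R ^ ((1 : ℝ) / 2) < cc 1 μ := h2.eventually (gt_mem_nhds hd1.2)
    filter_upwards [h1, h3] with R hR1 hR2
    exact ⟨hR1, hR2⟩
  have e1 : ∀ᶠ R in 𝓝 (1 : ℝ), |lam 1 μ R - μ| ≤ τ := by
    have := hc.eventually (Metric.closedBall_mem_nhds _ hτ)
    filter_upwards [this] with R hR
    rw [hl1, Real.dist_eq] at hR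
    exact hR
  obtain ⟨η, hη, h⟩ := Metric.eventually_nhds_iff.1 (hDm.and e1)
  refine ⟨min (η / 2) (1 / 2), by positivity, min_le_right _ _, fun R hR => ?_⟩
  have : |R - 1| ≤ η / 2 := hR.trans (min_le_left _ _)
  exact h (by rw [Real.dist_eq]; linarith)

/-- the case `k = 1` -/
private theorem NN_one {μ : ℝ} (hμ : 1 < μ) : ∃ ε L θ : ℝ,
    NN (TT 1 μ) (fun V => lam 1 μ (RR V)) ε L θ := by
  have hμ0 : 0 < μ := by linarith
  obtain ⟨D, hD⟩ : ∃ D : ℝ → ℝ, D = fun R => -(lam 1 μ R + 1) / (2 * R) := ⟨_, rfl⟩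
  obtain ⟨τ, hτ⟩ : ∃ τ : ℝ, τ = min ((μ - 1) / 2) 1 := ⟨_, rfl⟩
  have hτ0 : 0 < τ := by
    rw [hτ]
    exact lt_min (by linarith) one_pos
  have hτ2 : τ ≤ (μ - 1) / 2 := by rw [hτ]; exact min_le_left _ _
  have hτ3 : τ ≤ 1 := by rw [hτ]; exact min_le_right _ _
  obtain ⟨η, hη0, hη2, hη⟩ := nnr_local hμ hτ0
  obtain ⟨B, hB⟩ : ∃ B : ℝ, B = μ + 2 := ⟨_, rfl⟩
  have hB1 : 1 ≤ B := by rw [hB]; linarith
  obtain ⟨ε, hε⟩ : ∃ ε : ℝ, ε = min (η / 4) (1 / B) := ⟨_, rfl⟩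
  have hε0 : 0 < ε := by
    rw [hε]
    exact lt_min (by positivity) (by positivity)
  have hε1 : ε ≤ η / 4 := by rw [hε]; exact min_le_left _ _
  have hε2 : ε * B ≤ 1 := by
    have : ε ≤ 1 / B := by rw [hε]; exact min_le_right _ _
    rwa [le_div_iff₀ (by positivity)] at this
  have hε3 : ε ≤ 1 / 2 := by linarith
  -- points of the box
  have hRR : ∀ x y : ℝ, |x - 1| ≤ ε → |y| ≤ ε → |x ^ 2 + y ^ 2 - 1| ≤ η := by
    intro x y hx hy
    rw [abs_le] at hx hy ⊢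
    constructor <;> nlinarith
  have hDer : ∀ R, |R - 1| ≤ η → HasDerivAt (lam 1 μ) (D R) R := by
    intro R hR
    have h1 := EQK.lam_hasDerivAt one_pos (hη R hR).1
    have hl := EQK.lam_pos (hη R hR).1
    have hR0 := (hη R hR).1.1
    refine h1.congr_deriv ?_
    rw [hD, Real.rpow_neg hl.le, Real.rpow_one]
    field_simp
  have hDB : ∀ R, |R - 1| ≤ η → |D R| ≤ B := by
    intro R hR
    have hl := EQK.lam_pos (hη R hR).1
    have hR0 := (hη R hR).1.1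
    have h1 := (hη R hR).2
    have h2 : 1 / 2 ≤ R := by
      rw [abs_le] at hR
      linarith
    rw [hD]
    simp only
    rw [abs_div, abs_neg, abs_of_pos (by linarith : (0:ℝ) < lam 1 μ R + 1),
      abs_of_pos (by linarith : (0 : ℝ) < 2 * R), div_le_iff₀ (by linarith)]
    rw [abs_le] at h1
    nlinarith
  have hconv : Convex ℝ {R : ℝ | |R - 1| ≤ η} := by
    have : {R : ℝ | |R - 1| ≤ η} = Metric.closedBall 1 η := by
      ext R
      rw [Metric.mem_closedBall, Real.dist_eq]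
      rfl
    rw [this]
    exact convex_closedBall _ _
  have hLip : ∀ R R' : ℝ, |R - 1| ≤ η → |R' - 1| ≤ η → |lam 1 μ R - lam 1 μ R'| ≤ B * |R - R'| := by
    intro R R' hR hR'
    have := hconv.norm_image_sub_le_of_norm_hasDerivWithin_le (f := lam 1 μ) (f' := D) (C := B)
      (fun x hx => (hDer x hx).hasDerivWithinAt) (fun x hx => by
        rw [Real.norm_eq_abs]; exact hDB x hx) (show R' ∈ _ from hR') (show R ∈ _ from hR)
    rwa [Real.norm_eq_abs, Real.norm_eq_abs] at this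
  have hconvX : Convex ℝ {x : ℝ | |x - 1| ≤ ε} := by
    have : {x : ℝ | |x - 1| ≤ ε} = Metric.closedBall 1 ε := by
      ext R
      rw [Metric.mem_closedBall, Real.dist_eq]
      rfl
    rw [this]
    exact convex_closedBall _ _
  have hX : ∀ x x' y : ℝ, |x - 1| ≤ ε → |x' - 1| ≤ ε → |y| ≤ ε →
      |lam 1 μ (x ^ 2 + y ^ 2) * x - lam 1 μ (x' ^ 2 + y ^ 2) * x'| ≤ 1 * |x - x'| := by
    intro x x' y hx hx' hy
    have hd : ∀ t ∈ {t : ℝ | |t - 1| ≤ ε}, HasDerivWithinAt (fun t => lam 1 μ (t ^ 2 + y ^ 2) * t)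
        (D (t ^ 2 + y ^ 2) * (2 * t) * t + lam 1 μ (t ^ 2 + y ^ 2)) {t : ℝ | |t - 1| ≤ ε} t := by
      intro t ht
      have h1 : HasDerivAt (fun t : ℝ => t ^ 2 + y ^ 2) (2 * t) t := by
        have := (hasDerivAt_pow 2 t).add_const (y ^ 2)
        simpa using this
      have h2 := (hDer _ (hRR t y ht hy)).comp t h1
      have h3 := h2.mul (hasDerivAt_id t)
      have h4 : HasDerivAt (fun t => lam 1 μ (t ^ 2 + y ^ 2) * t)
          (D (t ^ 2 + y ^ 2) * (2 * t) * t + lam 1 μ (t ^ 2 + y ^ 2) * 1) t := h3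
      rw [mul_one] at h4
      exact h4.hasDerivWithinAt
    have hb : ∀ t ∈ {t : ℝ | |t - 1| ≤ ε},
        ‖D (t ^ 2 + y ^ 2) * (2 * t) * t + lam 1 μ (t ^ 2 + y ^ 2)‖ ≤ 1 := by
      intro t ht
      have hR := hRR t y ht hy
      have hl := EQK.lam_pos (hη _ hR).1
      have hR0 := (hη _ hR).1.1
      have h1 := (hη _ hR).2
      have h2 : 1 / 2 ≤ t ^ 2 + y ^ 2 := by
        rw [abs_le] at hR
        linarith
      rw [Real.norm_eq_abs, hD]
      simp only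
      have e : -(lam 1 μ (t ^ 2 + y ^ 2) + 1) / (2 * (t ^ 2 + y ^ 2)) * (2 * t) * t +
          lam 1 μ (t ^ 2 + y ^ 2) =
          -1 + (lam 1 μ (t ^ 2 + y ^ 2) + 1) * y ^ 2 / (t ^ 2 + y ^ 2) := by
        field_simp
        ring
      rw [e]
      have h3 : 0 ≤ (lam 1 μ (t ^ 2 + y ^ 2) + 1) * y ^ 2 / (t ^ 2 + y ^ 2) := by positivity
      have h4 : (lam 1 μ (t ^ 2 + y ^ 2) + 1) * y ^ 2 / (t ^ 2 + y ^ 2) ≤ 2 := by
        rw [div_le_iff₀ hR0]
        have h5 : lam 1 μ (t ^ 2 + y ^ 2) + 1 ≤ B := by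
          rw [abs_le] at h1
          rw [hB]
          linarith
        have h6 : y ^ 2 ≤ ε * ε := by
          rw [← sq_abs, sq]
          exact mul_le_mul hy hy (abs_nonneg _) hε0.le
        have h7 : (lam 1 μ (t ^ 2 + y ^ 2) + 1) * y ^ 2 ≤ B * (ε * ε) :=
          mul_le_mul h5 h6 (by positivity) (by linarith)
        have h8 : B * (ε * ε) ≤ 1 := by
          have h9 : (ε * B) * ε ≤ 1 * ε := mul_le_mul_of_nonneg_right hε2 hε0.le
          nlinarith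
        linarith
      rw [abs_le]
      constructor <;> linarith
    have := hconvX.norm_image_sub_le_of_norm_hasDerivWithin_le hd hb (show x' ∈ _ from hx')
      (show x ∈ _ from hx)
    rw [Real.norm_eq_abs, Real.norm_eq_abs] at this
    exact this
  refine ⟨ε, 4 * B, (1 + μ) / 2, ⟨hε0, by linarith, by linarith, nnr_fix one_pos hμ,
    ?_, ?_, ?_, ?_⟩⟩
  · -- T1
    rintro ⟨x, y⟩ ⟨x', y'⟩ ⟨hx, hy⟩ ⟨hx', hy'⟩
    show |(lam 1 μ (x ^ 2 + y ^ 2) * x - (μ - 1)) - (lam 1 μ (x' ^ 2 + y' ^ 2) * x' - (μ - 1))| ≤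
      |x - x'| + 4 * B * ((|y| + |y'|) * |y - y'|)
    simp only at hx hy hx' hy'
    have h1 := hX x x' y hx hx' hy
    have h2 := hLip (x' ^ 2 + y ^ 2) (x' ^ 2 + y' ^ 2) (hRR x' y hx' hy) (hRR x' y' hx' hy')
    have h3 : x' ^ 2 + y ^ 2 - (x' ^ 2 + y' ^ 2) = (y + y') * (y - y') := by ring
    rw [h3, abs_mul] at h2
    have h4 : |y + y'| ≤ |y| + |y'| := abs_add_le _ _
    have h5 : |x'| ≤ 2 := by
      rw [abs_le] at hx' ⊢
      constructor <;> linarith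
    have h6 : |lam 1 μ (x' ^ 2 + y ^ 2) * x' - lam 1 μ (x' ^ 2 + y' ^ 2) * x'| ≤
        4 * B * ((|y| + |y'|) * |y - y'|) := by
      rw [← sub_mul, abs_mul]
      have h7 : |y + y'| * |y - y'| ≤ (|y| + |y'|) * |y - y'| :=
        mul_le_mul_of_nonneg_right h4 (abs_nonneg _)
      have h8 : |lam 1 μ (x' ^ 2 + y ^ 2) - lam 1 μ (x' ^ 2 + y' ^ 2)| ≤ B * ((|y| + |y'|) * |y - y'|) :=
        h2.trans (mul_le_mul_of_nonneg_left h7 (by linarith))
      have h9 : 0 ≤ B * ((|y| + |y'|) * |y - y'|) := by positivity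
      have h10 := mul_le_mul h8 h5 (abs_nonneg _) h9
      nlinarith
    have e : (lam 1 μ (x ^ 2 + y ^ 2) * x - (μ - 1)) - (lam 1 μ (x' ^ 2 + y' ^ 2) * x' - (μ - 1)) =
        (lam 1 μ (x ^ 2 + y ^ 2) * x - lam 1 μ (x' ^ 2 + y ^ 2) * x') +
        (lam 1 μ (x' ^ 2 + y ^ 2) * x' - lam 1 μ (x' ^ 2 + y' ^ 2) * x') := by ring
    rw [e]
    rw [one_mul] at h1
    exact (abs_add_le _ _).trans (add_le_add h1 h6)
  · intro V _
    rfl
  · rintro ⟨x, y⟩ ⟨hx, hy⟩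
    have h1 := (hη _ (hRR x y hx hy)).2
    show (1 + μ) / 2 ≤ lam 1 μ (x ^ 2 + y ^ 2)
    rw [abs_le] at h1
    linarith
  · rintro ⟨x, y⟩ ⟨x', y'⟩ ⟨hx, hy⟩ ⟨hx', hy'⟩
    show |lam 1 μ (x ^ 2 + y ^ 2) - lam 1 μ (x' ^ 2 + y' ^ 2)| ≤ 4 * B * (|x - x'| + |y - y'|)
    simp only at hx hy hx' hy'
    have h2 := hLip (x ^ 2 + y ^ 2) (x' ^ 2 + y' ^ 2) (hRR x y hx hy) (hRR x' y' hx' hy')
    have h3 : x ^ 2 + y ^ 2 - (x' ^ 2 + y' ^ 2) = (x + x') * (x - x') + (y + y') * (y - y') := by ring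
    rw [h3] at h2
    have h4 : |x + x'| ≤ 4 := by
      rw [abs_le] at hx hx' ⊢
      constructor <;> linarith
    have h5 : |y + y'| ≤ 4 := by
      rw [abs_le] at hy hy' ⊢
      constructor <;> linarith
    have h6 : |(x + x') * (x - x') + (y + y') * (y - y')| ≤ 4 * |x - x'| + 4 * |y - y'| := by
      refine (abs_add_le _ _).trans ?_
      rw [abs_mul, abs_mul]
      exact add_le_add (mul_le_mul_of_nonneg_right h4 (abs_nonneg _))
        (mul_le_mul_of_nonneg_right h5 (abs_nonneg _))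
    have h7 := mul_le_mul_of_nonneg_left h6 (show (0:ℝ) ≤ B by linarith)
    linarith

/-- For every `k ≥ 1` the step is a map of type `NN` near the saddle. -/
theorem NN_TT {k μ : ℝ} (hk : 1 ≤ k) (hμ : 1 < μ) : ∃ ε L θ : ℝ,
    NN (TT k μ) (fun V => lam k μ (RR V)) ε L θ := by
  rcases hk.lt_or_eq with h1 | h1
  · obtain ⟨ε, κ, L, θ, h, -⟩ := EQK.NS_TT h1 hμ
    refine ⟨ε, L, θ, ⟨h.hε, h.hL, h.hθ, nnr_fix (by linarith) hμ, ?_, h.T2, h.lf1, h.lf2⟩⟩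
    intro V W hV hW
    refine (h.T1 V W hV hW).trans ?_
    have h2 : κ * |V.1 - W.1| ≤ 1 * |V.1 - W.1| :=
      mul_le_mul_of_nonneg_right h.hκ.le (abs_nonneg _)
    linarith
  · rw [← h1]
    exact NN_one hμ

end EQN
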