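import Pool.Agent.Lib.MP_226de1_co.K.Shadow1

/-! Uniqueness of the unstable curve when the first direction is only nonexpanding (eigenvalue of
modulus at most one): a backward orbit converging to the saddle lies on the curve.  Compare
`K/Shadow1`, `K/Shadow2`, `K/Shadow3` (contraction). -/

set_option autoImplicit false

namespace EQN

open Set Filter Topology
open EQK (Bx)

/-- the map near the saddle: nonexpanding in the first direction -/
structure NN (T : ℝ × ℝ → ℝ × ℝ) (lf : ℝ × ℝ → ℝ) (ε L θ : ℝ) : Prop where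
  hε : 0 < ε
  hL : 0 ≤ L
  hθ : 1 < θ
  fix : (T (1, 0)).1 = 1
  T1 : ∀ V W, Bx ε V → Bx ε W →
    |(T V).1 - (T W).1| ≤ |V.1 - W.1| + L * ((|V.2| + |W.2|) * |V.2 - W.2|)
  T2 : ∀ V, Bx ε V → (T V).2 = lf V * V.2
  lf1 : ∀ V, Bx ε V → θ ≤ lf V
  lf2 : ∀ V W, Bx ε V → Bx ε W → |lf V - lf W| ≤ L * (|V.1 - W.1| + |V.2 - W.2|)

variable {T : ℝ × ℝ → ℝ × ℝ} {lf : ℝ × ℝ → ℝ} {ε L θ : ℝ}

private theorem nn_log {x y : ℝ} (hx : 1 ≤ x) (hy : 1 ≤ y) :
    |Real.log x - Real.log y| ≤ |x - y| := by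
  have key : ∀ p q : ℝ, 1 ≤ p → 1 ≤ q → Real.log p - Real.log q ≤ |p - q| := by
    intro p q hp hq
    have hp0 : 0 < p := by linarith
    have hq0 : 0 < q := by linarith
    rw [← Real.log_div hp0.ne' hq0.ne']
    have h1 := Real.log_le_sub_one_of_pos (div_pos hp0 hq0)
    have h2 : p / q - 1 = (p - q) / q := by field_simp
    rw [h2] at h1
    refine h1.trans ?_
    rw [div_le_iff₀ hq0]
    calc p - q ≤ |p - q| := le_abs_self _
      _ ≤ |p - q| * q := le_mul_of_one_le_right (abs_nonneg _) hq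
  rw [abs_le]
  constructor
  · have := key y x hy hx
    rw [abs_sub_comm] at this
    linarith
  · exact key x y hx hy

private theorem nn_diff {v w : ℝ} (hv : 0 < v) (hw : 0 < w) (hb : |Real.log (v / w)| ≤ 1) :
    |v - w| ≤ 2 * v * |Real.log (v / w)| ∧ w ≤ 3 * v := by
  have hWe : w = v * Real.exp (-Real.log (v / w)) := by
    rw [Real.exp_neg, Real.exp_log (div_pos hv hw)]
    field_simp
  have hdiff : |v - w| ≤ 2 * v * |Real.log (v / w)| := by
    have h1 : v - w = -(v * (Real.exp (-Real.log (v / w)) - 1)) := by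
      linear_combination (-1 : ℝ) * hWe
    rw [h1, abs_neg, abs_mul, abs_of_pos hv]
    have h2 := Real.abs_exp_sub_one_le (x := -Real.log (v / w)) (by rw [abs_neg]; exact hb)
    rw [abs_neg] at h2
    calc v * |Real.exp (-Real.log (v / w)) - 1| ≤ v * (2 * |Real.log (v / w)|) :=
          mul_le_mul_of_nonneg_left h2 hv.le
      _ = 2 * v * |Real.log (v / w)| := by ring
  refine ⟨hdiff, ?_⟩
  have h1 : w - v ≤ 2 * v * |Real.log (v / w)| :=
    (le_abs_self _).trans (by rw [abs_sub_comm]; exact hdiff)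
  nlinarith [mul_nonneg hv.le (sub_nonneg.mpr hb)]

/-- One step of the comparison, with a weight `m` after and `m + L` before the step. -/
theorem NN.step (h : NN T lf ε L θ) : ∃ K : ℝ, 0 < K ∧ ∀ V W : ℝ × ℝ,
    Bx ε V → Bx ε W → 0 < V.2 → 0 < W.2 → |Real.log (V.2 / W.2)| ≤ 1 → ∀ m : ℝ, 0 ≤ m →
      |Real.log ((T V).2 / (T W).2)| + m * |(T V).1 - (T W).1| ≤
        (1 + K * (1 + m) * V.2) * (|Real.log (V.2 / W.2)| + (m + L) * |V.1 - W.1|) := by
  have hL := h.hL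
  have hε := h.hε
  refine ⟨2 * L + 8 * L * ε + 1, by positivity, ?_⟩
  intro V W hV hW hv hw hb m hm
  have hvε : V.2 ≤ ε := (le_abs_self _).trans hV.2
  obtain ⟨hdiff, hWle⟩ := nn_diff hv hw hb
  set b := |Real.log (V.2 / W.2)| with hbdef
  set a := |V.1 - W.1| with hadef
  have ha0 : 0 ≤ a := abs_nonneg _
  have hb0 : 0 ≤ b := abs_nonneg _
  have hA : |(T V).1 - (T W).1| ≤ a + 8 * L * ε * V.2 * b := by
    refine (h.T1 V W hV hW).trans ?_
    rw [abs_of_pos hv, abs_of_pos hw]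
    have h1 : (V.2 + W.2) * |V.2 - W.2| ≤ (4 * V.2) * (2 * V.2 * b) :=
      mul_le_mul (by linarith) hdiff (abs_nonneg _) (by linarith)
    have h2 : (4 * V.2) * (2 * V.2 * b) ≤ 8 * ε * V.2 * b := by
      have : V.2 * (V.2 * b) ≤ ε * (V.2 * b) :=
        mul_le_mul_of_nonneg_right hvε (mul_nonneg hv.le hb0)
      nlinarith
    have h3 := mul_le_mul_of_nonneg_left (h1.trans h2) hL
    calc a + L * ((V.2 + W.2) * |V.2 - W.2|) ≤ a + L * (8 * ε * V.2 * b) := by linarith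
      _ = a + 8 * L * ε * V.2 * b := by ring
  have hlV := h.lf1 V hV
  have hlW := h.lf1 W hW
  have hθ := h.hθ
  have hB : |Real.log ((T V).2 / (T W).2)| ≤ b + L * a + 2 * L * V.2 * b := by
    rw [h.T2 V hV, h.T2 W hW]
    have hlV0 : 0 < lf V := by linarith
    have hlW0 : 0 < lf W := by linarith
    have h1 : Real.log (lf V * V.2 / (lf W * W.2)) =
        (Real.log (lf V) - Real.log (lf W)) + Real.log (V.2 / W.2) := by
      rw [← Real.log_div hlV0.ne' hlW0.ne', ← Real.log_mul (div_pos hlV0 hlW0).ne'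
        (div_pos hv hw).ne', div_mul_div_comm]
    rw [h1]
    refine (abs_add_le _ _).trans ?_
    have h2 := nn_log (x := lf V) (y := lf W) (by linarith) (by linarith)
    have h3 := h.lf2 V W hV hW
    have h4 : L * (|V.1 - W.1| + |V.2 - W.2|) ≤ L * (a + 2 * V.2 * b) :=
      mul_le_mul_of_nonneg_left (by linarith) hL
    calc |Real.log (lf V) - Real.log (lf W)| + |Real.log (V.2 / W.2)| ≤
          L * (a + 2 * V.2 * b) + b := by linarith
      _ = b + L * a + 2 * L * V.2 * b := by ring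
  have hMA := mul_le_mul_of_nonneg_left hA hm
  have h5 : 0 ≤ V.2 * b := mul_nonneg hv.le hb0
  have h6 : 0 ≤ V.2 * ((m + L) * a) := by positivity
  have h7 : 0 ≤ (2 * L + 8 * L * ε + 1) * (1 + m) * (V.2 * ((m + L) * a)) := by positivity
  have h8 : (2 * L + 8 * m * L * ε) * (V.2 * b) ≤
      (2 * L + 8 * L * ε + 1) * (1 + m) * (V.2 * b) := by
    refine mul_le_mul_of_nonneg_right ?_ h5
    have : 0 ≤ L * m := by positivity
    have : 0 ≤ L * ε := by positivity
    nlinarith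
  calc |Real.log ((T V).2 / (T W).2)| + m * |(T V).1 - (T W).1|
      ≤ (b + L * a + 2 * L * V.2 * b) + m * (a + 8 * L * ε * V.2 * b) := by linarith
    _ = b + (2 * L + 8 * m * L * ε) * (V.2 * b) + (m + L) * a := by ring
    _ ≤ b + (2 * L + 8 * L * ε + 1) * (1 + m) * (V.2 * b) + (m + L) * a +
        (2 * L + 8 * L * ε + 1) * (1 + m) * (V.2 * ((m + L) * a)) := by linarith
    _ = (1 + (2 * L + 8 * L * ε + 1) * (1 + m) * V.2) * (b + (m + L) * a) := by ring

/-- Comparison of two orbits near the saddle; the loss is linear in the number of steps. -/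
theorem NN.compare (h : NN T lf ε L θ) : ∃ ε' C : ℝ, 0 < ε' ∧ 3 * ε' ≤ ε ∧ 0 < C ∧
    ∀ (n : ℕ) (B : ℕ → ℝ × ℝ) (W₀ : ℝ × ℝ), (∀ j < n, T (B (j + 1)) = B j) →
      (∀ j ≤ n, Bx ε' (B j) ∧ 0 < (B j).2) → Bx ε W₀ → W₀.2 = (B n).2 →
      C * (n + 1) * |W₀.1 - (B n).1| ≤ ε' →
      (∀ j ≤ n, Bx ε (T^[j] W₀) ∧ 0 < (T^[j] W₀).2 ∧ (T^[j] W₀).2 ≤ 3 * ε') ∧
      |(T^[n] W₀).1 - (B 0).1| ≤ C * (n + 1) * |W₀.1 - (B n).1| ∧
      |(T^[n] W₀).2 - (B 0).2| ≤ C * (n + 1) * |W₀.1 - (B n).1| := by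
  obtain ⟨K, hK, hstep⟩ := h.step
  have hε := h.hε
  have hθ := h.hθ
  have hL := h.hL
  have hθ1 : 0 < θ - 1 := by linarith
  obtain ⟨β, hβ⟩ : ∃ β : ℝ, β = K * L / (θ - 1) := ⟨_, rfl⟩
  obtain ⟨α, hα⟩ : ∃ α : ℝ, α = (K * 2 + β * θ) / (θ - 1) := ⟨_, rfl⟩
  have hβ0 : 0 ≤ β := by rw [hβ]; positivity
  have hα0 : 0 ≤ α := by rw [hα]; positivity
  have hβe : β * (θ - 1) = K * L := by rw [hβ]; field_simp
  have hαe : α * (θ - 1) = K * 2 + β * θ := by rw [hα]; field_simp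
  -- the potential
  have hpot : ∀ r v v' : ℝ, 1 ≤ r → 0 ≤ v → θ * v ≤ v' →
      K * (1 + (1 + L * (r - 1))) * v + (α + β * r) * v ≤ (α + β * (r - 1)) * v' := by
    intro r v v' hr hv hvv
    have h1 : 0 ≤ α + β * (r - 1) := by
      have : 0 ≤ β * (r - 1) := mul_nonneg hβ0 (by linarith)
      linarith
    have h2 : (α + β * (r - 1)) * (θ * v) ≤ (α + β * (r - 1)) * v' :=
      mul_le_mul_of_nonneg_left hvv h1
    refine le_trans ?_ h2
    have h3 : (α + β * (r - 1)) * (θ * v) - (K * (1 + (1 + L * (r - 1))) * v + (α + β * r) * v) =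
        (α * (θ - 1) + β * (θ - 1) * r - β * θ - K * 2 - K * L * (r - 1)) * v := by ring
    rw [hαe, hβe] at h3
    have h4 : (K * 2 + β * θ + K * L * r - β * θ - K * 2 - K * L * (r - 1)) * v = K * L * v := by
      ring
    rw [h4] at h3
    have h5 : 0 ≤ K * L * v := by positivity
    linarith
  obtain ⟨P, hP⟩ : ∃ P : ℝ, P = Real.exp (α * ε) := ⟨_, rfl⟩
  have hP1 : 1 ≤ P := by rw [hP]; exact Real.one_le_exp (by positivity)
  have hP0 : 0 < P := by linarith
  refine ⟨ε / 3, P * (1 + L) * (1 + 2 * ε), by positivity, by linarith, by positivity, ?_⟩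
  intro n B W₀ hT hB hW₀ hW₀2 hC
  set d := |W₀.1 - (B n).1| with hd
  have hd0 : 0 ≤ d := abs_nonneg _
  have hn0 : (0 : ℝ) ≤ (n : ℝ) := Nat.cast_nonneg n
  obtain ⟨D, hD⟩ : ∃ D : ℝ, D = (1 + L * n) * d := ⟨_, rfl⟩
  have hD0 : 0 ≤ D := by rw [hD]; positivity
  have hDle : D ≤ (1 + L) * (n + 1) * d := by
    rw [hD]
    refine mul_le_mul_of_nonneg_right ?_ hd0
    nlinarith
  have hPD : P * (1 + 2 * ε) * D ≤ P * (1 + L) * (1 + 2 * ε) * (n + 1) * d := by
    calc P * (1 + 2 * ε) * D ≤ P * (1 + 2 * ε) * ((1 + L) * (n + 1) * d) :=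
          mul_le_mul_of_nonneg_left hDle (by positivity)
      _ = P * (1 + L) * (1 + 2 * ε) * (n + 1) * d := by ring
  have hPDε : P * (1 + 2 * ε) * D ≤ ε / 3 := hPD.trans hC
  have hPd : P * D ≤ ε / 3 := by
    have h1 : 0 ≤ P * (2 * ε) * D := by positivity
    have e : P * (1 + 2 * ε) * D = P * D + P * (2 * ε) * D := by ring
    linarith
  have hPMd1 : P * D ≤ 1 := by
    have h1 : 2 * ε * (P * D) ≤ ε / 3 := by
      have h2 : 0 ≤ P * D := by positivity
      have e : P * (1 + 2 * ε) * D = P * D + 2 * ε * (P * D) := by ring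
      linarith
    have h2 : ε * (2 * (P * D)) ≤ ε * (1 / 3) := by linarith
    have h3 := le_of_mul_le_mul_left h2 hε
    have h4 : 0 ≤ P * D := by positivity
    linarith
  -- consequences of a bound on the distance function
  have hcons : ∀ (V W : ℝ × ℝ) (m : ℝ), 1 ≤ m → Bx (ε / 3) V → 0 < V.2 → 0 < W.2 →
      |Real.log (V.2 / W.2)| + m * |V.1 - W.1| ≤ P * D →
      |Real.log (V.2 / W.2)| ≤ 1 ∧ |V.1 - W.1| ≤ P * D ∧ Bx ε W ∧ W.2 ≤ 3 * (ε / 3) ∧
        |V.2 - W.2| ≤ P * (1 + 2 * ε) * D := by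
    intro V W m hm hV hV2 hW2 hS
    have h0 : |V.1 - W.1| ≤ m * |V.1 - W.1| := le_mul_of_one_le_left (abs_nonneg _) hm
    have h1 : 0 ≤ |V.1 - W.1| := abs_nonneg _
    have h2 : 0 ≤ |Real.log (V.2 / W.2)| := abs_nonneg _
    have hl : |Real.log (V.2 / W.2)| ≤ P * D := by linarith
    have hl1 : |Real.log (V.2 / W.2)| ≤ 1 := hl.trans hPMd1
    have ha : |V.1 - W.1| ≤ P * D := by linarith
    obtain ⟨h4, h5⟩ := nn_diff hV2 hW2 hl1
    have hVε : V.2 ≤ ε / 3 := (le_abs_self _).trans hV.2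
    refine ⟨hl1, ha, ⟨?_, ?_⟩, by linarith, ?_⟩
    · calc |W.1 - 1| = |(W.1 - V.1) + (V.1 - 1)| := by ring_nf
        _ ≤ |W.1 - V.1| + |V.1 - 1| := abs_add_le _ _
        _ ≤ ε / 3 + ε / 3 := by
            refine add_le_add ?_ hV.1
            rw [abs_sub_comm]
            exact ha.trans hPd
        _ ≤ ε := by linarith
    · rw [abs_of_pos hW2]; linarith
    · refine h4.trans ?_
      calc 2 * V.2 * |Real.log (V.2 / W.2)| ≤ 2 * ε * (P * D) := by
            refine mul_le_mul (by linarith) hl h2 (by positivity)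
        _ ≤ P * D + 2 * ε * (P * D) := by
            have : 0 ≤ P * D := by positivity
            linarith
        _ = P * (1 + 2 * ε) * D := by ring
  have hBε : ∀ j ≤ n, Bx ε (B j) := fun j hj =>
    ⟨(hB j hj).1.1.trans (by linarith), (hB j hj).1.2.trans (by linarith)⟩
  -- growth of the second coordinate
  have hgrow : ∀ j < n, θ * (B (j + 1)).2 ≤ (B j).2 := by
    intro j hj
    rw [← hT j hj, h.T2 _ (hBε (j + 1) (by omega))]
    exact mul_le_mul_of_nonneg_right (h.lf1 _ (hBε (j + 1) (by omega))) (hB (j + 1) (by omega)).2.le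
  -- the potential along the orbit is at most its last value
  have hΨ : ∀ r ≤ n, (α + β * r) * (B r).2 ≤ α * ε := by
    intro r
    induction r with
    | zero =>
      intro hr
      have h1 : (B 0).2 ≤ ε := (le_abs_self _).trans (hBε 0 hr).2
      have h2 := mul_le_mul_of_nonneg_left h1 hα0
      simpa using h2
    | succ r ih =>
      intro hr
      have h1 := ih (by omega)
      have h2 := hpot ((r + 1 : ℕ) : ℝ) (B (r + 1)).2 (B r).2 (by push_cast; linarith [Nat.cast_nonneg (α := ℝ) r])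
        (hB (r + 1) hr).2.le (hgrow r (by omega))
      have h3 : 0 ≤ K * (1 + (1 + L * (((r + 1 : ℕ) : ℝ) - 1))) * (B (r + 1)).2 := by
        have h4 : (0 : ℝ) ≤ ((r + 1 : ℕ) : ℝ) - 1 := by push_cast; linarith [Nat.cast_nonneg (α := ℝ) r]
        have := (hB (r + 1) hr).2.le
        positivity
      have e : ((r + 1 : ℕ) : ℝ) - 1 = (r : ℝ) := by push_cast; ring
      rw [e] at h2 h3
      linarith
  -- the main induction
  have hmain : ∀ j ≤ n, 0 < (T^[j] W₀).2 ∧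
      |Real.log ((B (n - j)).2 / (T^[j] W₀).2)| +
          (1 + L * ((n - j : ℕ) : ℝ)) * |(B (n - j)).1 - (T^[j] W₀).1| ≤
        Real.exp ((α + β * ((n - j : ℕ) : ℝ)) * (B (n - j)).2) * D := by
    intro j
    induction j with
    | zero =>
      intro _
      have hBn := (hB n le_rfl).2
      rw [Nat.sub_zero, Function.iterate_zero, id]
      refine ⟨by rw [hW₀2]; exact hBn, ?_⟩
      rw [hW₀2, div_self hBn.ne', Real.log_one, abs_zero, zero_add, abs_sub_comm, ← hd, ← hD]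
      have h1 : 1 ≤ Real.exp ((α + β * (n : ℝ)) * (B n).2) := Real.one_le_exp (by positivity)
      exact le_mul_of_one_le_left hD0 h1
    | succ j ih =>
      intro hj
      have hjn : j < n := by omega
      obtain ⟨hw, hS⟩ := ih hjn.le
      obtain ⟨hVb, hV2⟩ := hB (n - j) (by omega)
      have hS' : |Real.log ((B (n - j)).2 / (T^[j] W₀).2)| +
          (1 + L * ((n - j : ℕ) : ℝ)) * |(B (n - j)).1 - (T^[j] W₀).1| ≤ P * D := by
        refine hS.trans (mul_le_mul_of_nonneg_right ?_ hD0)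
        rw [hP]
        exact Real.exp_le_exp.mpr (hΨ (n - j) (by omega))
      have hm1 : (1 : ℝ) ≤ 1 + L * ((n - j : ℕ) : ℝ) := by
        have : (0 : ℝ) ≤ ((n - j : ℕ) : ℝ) := Nat.cast_nonneg _
        have := mul_nonneg hL this
        linarith
      obtain ⟨hl1, -, hWb, -, -⟩ := hcons _ _ _ hm1 hVb hV2 hw hS'
      have hr : ((n - j : ℕ) : ℝ) - 1 = ((n - (j + 1) : ℕ) : ℝ) := by
        have : n - j = (n - (j + 1)) + 1 := by omega
        rw [this]
        push_cast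
        ring
      have hr0 : (0 : ℝ) ≤ ((n - (j + 1) : ℕ) : ℝ) := Nat.cast_nonneg _
      have hstp := hstep _ _ (hBε (n - j) (by omega)) hWb hV2 hw hl1
        (1 + L * (((n - j : ℕ) : ℝ) - 1)) (by rw [hr]; positivity)
      have e1 : 1 + L * (((n - j : ℕ) : ℝ) - 1) + L = 1 + L * ((n - j : ℕ) : ℝ) := by ring
      rw [e1] at hstp
      have hTV : T (B (n - j)) = B (n - (j + 1)) := by
        have h1 := hT (n - (j + 1)) (by omega)
        have h2 : n - (j + 1) + 1 = n - j := by omega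
        rw [h2] at h1
        exact h1
      have hTW : T (T^[j] W₀) = T^[j + 1] W₀ := by rw [Function.iterate_succ_apply']
      have hpos : 0 < (T (T^[j] W₀)).2 := by
        rw [h.T2 _ hWb]
        exact mul_pos (by linarith [h.lf1 _ hWb]) hw
      have hgr := hgrow (n - (j + 1)) (by omega)
      have e2 : n - (j + 1) + 1 = n - j := by omega
      rw [e2] at hgr
      rw [hTV, hTW] at hstp
      rw [hTW] at hpos
      refine ⟨hpos, ?_⟩
      rw [← hr]
      refine hstp.trans ?_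
      have h1 := Real.add_one_le_exp (K * (1 + (1 + L * (((n - j : ℕ) : ℝ) - 1))) * (B (n - j)).2)
      have h2 := hpot ((n - j : ℕ) : ℝ) (B (n - j)).2 (B (n - (j + 1))).2
        (by linarith [hr, hr0]) hV2.le hgr
      have h3 : 0 ≤ |Real.log ((B (n - j)).2 / (T^[j] W₀).2)| +
          (1 + L * ((n - j : ℕ) : ℝ)) * |(B (n - j)).1 - (T^[j] W₀).1| := by
        have := mul_nonneg (zero_le_one.trans hm1) (abs_nonneg ((B (n - j)).1 - (T^[j] W₀).1))
        have := abs_nonneg (Real.log ((B (n - j)).2 / (T^[j] W₀).2))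
        linarith
      calc (1 + K * (1 + (1 + L * (((n - j : ℕ) : ℝ) - 1))) * (B (n - j)).2) *
            (|Real.log ((B (n - j)).2 / (T^[j] W₀).2)| +
              (1 + L * ((n - j : ℕ) : ℝ)) * |(B (n - j)).1 - (T^[j] W₀).1|)
          ≤ Real.exp (K * (1 + (1 + L * (((n - j : ℕ) : ℝ) - 1))) * (B (n - j)).2) *
            (Real.exp ((α + β * ((n - j : ℕ) : ℝ)) * (B (n - j)).2) * D) :=
            mul_le_mul (by linarith) hS h3 (Real.exp_pos _).le
        _ = Real.exp (K * (1 + (1 + L * (((n - j : ℕ) : ℝ) - 1))) * (B (n - j)).2 +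
              (α + β * ((n - j : ℕ) : ℝ)) * (B (n - j)).2) * D := by
            rw [Real.exp_add]; ring
        _ ≤ Real.exp ((α + β * (((n - j : ℕ) : ℝ) - 1)) * (B (n - (j + 1))).2) * D :=
            mul_le_mul_of_nonneg_right (Real.exp_le_exp.mpr h2) hD0
  have hmain' : ∀ j ≤ n, 0 < (T^[j] W₀).2 ∧
      |Real.log ((B (n - j)).2 / (T^[j] W₀).2)| +
        (1 + L * ((n - j : ℕ) : ℝ)) * |(B (n - j)).1 - (T^[j] W₀).1| ≤ P * D := by
    intro j hj
    obtain ⟨h1, h2⟩ := hmain j hj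
    refine ⟨h1, h2.trans (mul_le_mul_of_nonneg_right ?_ hD0)⟩
    rw [hP]
    exact Real.exp_le_exp.mpr (hΨ (n - j) (by omega))
  have hm1 : ∀ r : ℕ, (1 : ℝ) ≤ 1 + L * (r : ℝ) := by
    intro r
    have : (0 : ℝ) ≤ (r : ℝ) := Nat.cast_nonneg _
    have := mul_nonneg hL this
    linarith
  refine ⟨fun j hj => ?_, ?_, ?_⟩
  · obtain ⟨h1, h2⟩ := hmain' j hj
    obtain ⟨hVb, hV2⟩ := hB (n - j) (by omega)
    obtain ⟨-, -, h3, h4, -⟩ := hcons _ _ _ (hm1 _) hVb hV2 h1 h2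
    exact ⟨h3, h1, h4⟩
  · obtain ⟨h1, h2⟩ := hmain' n le_rfl
    rw [Nat.sub_self] at h2
    obtain ⟨hVb, hV2⟩ := hB 0 (by omega)
    obtain ⟨-, h3, -, -, -⟩ := hcons _ _ _ (hm1 _) hVb hV2 h1 h2
    rw [abs_sub_comm]
    refine h3.trans (le_trans ?_ hPD)
    have : 0 ≤ P * (2 * ε) * D := by positivity
    have e : P * (1 + 2 * ε) * D = P * D + P * (2 * ε) * D := by ring
    linarith
  · obtain ⟨h1, h2⟩ := hmain' n le_rfl
    rw [Nat.sub_self] at h2
    obtain ⟨hVb, hV2⟩ := hB 0 (by omega)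
    obtain ⟨-, -, -, -, h3⟩ := hcons _ _ _ (hm1 _) hVb hV2 h1 h2
    rw [abs_sub_comm]
    exact h3.trans hPD

/-- the rate of convergence of a backward orbit to the saddle in the first direction -/
theorem NN.rate (h : NN T lf ε L θ) {B : ℕ → ℝ × ℝ} (hT : ∀ j, T (B (j + 1)) = B j)
    (hB : ∀ j, Bx ε (B j) ∧ 0 < (B j).2) (hlim : Tendsto B atTop (𝓝 (1, 0))) (j : ℕ) :
    |(B j).1 - 1| ≤ L / (θ ^ 2 - 1) * (B j).2 ^ 2 := by
  have hθ := h.hθ
  have hL := h.hL
  have hθ2 : 0 < θ ^ 2 - 1 := by nlinarith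
  have hone : Bx ε ((1 : ℝ), (0 : ℝ)) := by
    have := h.hε
    refine ⟨?_, ?_⟩
    · simp only [sub_self, abs_zero]; exact this.le
    · simp only [abs_zero]; exact this.le
  have hmono : Monotone (fun j => |(B j).1 - 1| - L / (θ ^ 2 - 1) * (B j).2 ^ 2) := by
    refine monotone_nat_of_le_succ fun j => ?_
    have hV := (hB (j + 1)).1
    have hv := (hB (j + 1)).2
    have h1 := h.T1 (B (j + 1)) (1, 0) hV hone
    rw [h.fix, hT j] at h1
    simp only [abs_zero, add_zero, sub_zero] at h1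
    have h2 : θ * (B (j + 1)).2 ≤ (B j).2 := by
      rw [← hT j, h.T2 _ hV]
      exact mul_le_mul_of_nonneg_right (h.lf1 _ hV) hv.le
    have h3 : θ ^ 2 * (B (j + 1)).2 ^ 2 ≤ (B j).2 ^ 2 := by
      rw [← mul_pow]
      exact pow_le_pow_left₀ (by positivity) h2 2
    have h4 : L * (|(B (j + 1)).2| * |(B (j + 1)).2|) = L * (B (j + 1)).2 ^ 2 := by
      rw [abs_of_pos hv, sq]
    rw [h4] at h1
    have h5 : L * (B (j + 1)).2 ^ 2 ≤
        L / (θ ^ 2 - 1) * ((B j).2 ^ 2 - (B (j + 1)).2 ^ 2) := by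
      have h6 : (θ ^ 2 - 1) * (B (j + 1)).2 ^ 2 ≤ (B j).2 ^ 2 - (B (j + 1)).2 ^ 2 := by linarith
      have h7 := mul_le_mul_of_nonneg_left h6 (div_nonneg hL hθ2.le)
      have e : L / (θ ^ 2 - 1) * ((θ ^ 2 - 1) * (B (j + 1)).2 ^ 2) = L * (B (j + 1)).2 ^ 2 := by
        field_simp
      rw [e] at h7
      exact h7
    show |(B j).1 - 1| - L / (θ ^ 2 - 1) * (B j).2 ^ 2 ≤
      |(B (j + 1)).1 - 1| - L / (θ ^ 2 - 1) * (B (j + 1)).2 ^ 2
    have e2 : L / (θ ^ 2 - 1) * ((B j).2 ^ 2 - (B (j + 1)).2 ^ 2) =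
      L / (θ ^ 2 - 1) * (B j).2 ^ 2 - L / (θ ^ 2 - 1) * (B (j + 1)).2 ^ 2 := by ring
    rw [e2] at h5
    linarith
  have ht : Tendsto (fun j => |(B j).1 - 1| - L / (θ ^ 2 - 1) * (B j).2 ^ 2) atTop (𝓝 0) := by
    have h1 : Tendsto (fun j => (B j).1) atTop (𝓝 1) :=
      ((continuous_fst.tendsto ((1 : ℝ), (0 : ℝ))).comp hlim)
    have h2 : Tendsto (fun j => (B j).2) atTop (𝓝 0) :=
      ((continuous_snd.tendsto ((1 : ℝ), (0 : ℝ))).comp hlim)
    have h3 := ((h1.sub_const 1).abs).sub ((h2.pow 2).const_mul (L / (θ ^ 2 - 1)))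
    simpa using h3
  have h9 : |(B j).1 - 1| - L / (θ ^ 2 - 1) * (B j).2 ^ 2 ≤ 0 := hmono.ge_of_tendsto ht j
  linarith

/-- The shadowing theorem for a nonexpanding first direction (compare `EQK.NS.shadow`). -/
theorem NN.shadow (h : NN T lf ε L θ) {μ r : ℝ} (hμ : 1 < μ) (hr : 0 < r) {W : ℝ → ℝ × ℝ}
    (hW : ContinuousOn W (Ioc 0 r)) (hW0 : Tendsto W (𝓝[>] 0) (𝓝 (1, 0)))
    (hWb : ∀ t, 0 < t → t ≤ r → Bx ε (W t) ∧ 0 < (W t).2)
    (hWs : ∀ t, 0 < t → μ * t ≤ r → W (μ * t) = T (W t)) :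
    ∃ ε' : ℝ, 0 < ε' ∧ ∀ B : ℕ → ℝ × ℝ, (∀ j, T (B (j + 1)) = B j) →
      (∀ j, Bx ε' (B j) ∧ 0 < (B j).2) → Tendsto B atTop (𝓝 (1, 0)) →
      ∃ t, 0 < t ∧ t ≤ r ∧ W t = B 0 := by
  obtain ⟨ε₀, C, hε₀, hε₀ε, hC, hcmp⟩ := h.compare
  have hμ0 : 0 < μ := by linarith
  have hθ := h.hθ
  have hL := h.hL
  have hθ2 : 0 < θ ^ 2 - 1 := by nlinarith
  have hW2 : ContinuousOn (fun t => (W t).2) (Ioc 0 r) := continuous_snd.comp_continuousOn hW
  -- lower bounds of the second coordinate away from zero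
  have hlow : ∀ δ, 0 < δ → δ ≤ r → ∃ m, 0 < m ∧ ∀ t, δ ≤ t → t ≤ r → m ≤ (W t).2 := by
    intro δ hδ hδr
    have hsub : Icc δ r ⊆ Ioc 0 r := fun t ht => ⟨hδ.trans_le ht.1, ht.2⟩
    obtain ⟨t₀, ht₀, hmin⟩ := isCompact_Icc.exists_isMinOn ⟨δ, ⟨le_rfl, hδr⟩⟩ (hW2.mono hsub)
    exact ⟨(W t₀).2, (hWb t₀ (hsub ht₀).1 (hsub ht₀).2).2, fun t h1 h2 => hmin ⟨h1, h2⟩⟩
  have hrμ : r / μ ≤ r := div_le_self hr.le hμ.le
  -- the rate for the curve
  have hWrate : ∀ t, 0 < t → t ≤ r → |(W t).1 - 1| ≤ L / (θ ^ 2 - 1) * (W t).2 ^ 2 := by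
    intro t ht htr
    have hle : ∀ j : ℕ, t / μ ^ j ≤ t := fun j =>
      div_le_self ht.le (one_le_pow₀ hμ.le)
    have hpos : ∀ j : ℕ, 0 < t / μ ^ j := fun j => by positivity
    have h1 := h.rate (B := fun j : ℕ => W (t / μ ^ j)) (fun j => by
        have e : μ * (t / μ ^ (j + 1)) = t / μ ^ j := by
          rw [pow_succ]
          field_simp
        have h2 := hWs (t / μ ^ (j + 1)) (hpos _) (by rw [e]; exact (hle j).trans htr)
        rw [e] at h2
        exact h2.symm) (fun j => hWb _ (hpos j) ((hle j).trans htr)) (by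
        have h3 : Tendsto (fun j : ℕ => t / μ ^ j) atTop (𝓝[>] 0) := by
          rw [tendsto_nhdsWithin_iff]
          refine ⟨?_, Eventually.of_forall fun j => hpos j⟩
          have h4 : Tendsto (fun j : ℕ => (μ⁻¹) ^ j) atTop (𝓝 0) :=
            tendsto_pow_atTop_nhds_zero_of_lt_one (by positivity) (inv_lt_one_of_one_lt₀ hμ)
          have h5 := h4.const_mul t
          rw [mul_zero] at h5
          refine h5.congr (fun j => ?_)
          rw [inv_pow]
          rfl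
        exact hW0.comp h3) 0
    simpa using h1
  obtain ⟨m, hm, hmW⟩ := hlow (r / μ) (by positivity) hrμ
  refine ⟨min ε₀ (m / 4), lt_min hε₀ (by positivity), ?_⟩
  intro B hTB hB hBlim
  have hBb : ∀ j, Bx ε₀ (B j) ∧ 0 < (B j).2 := fun j =>
    ⟨⟨(hB j).1.1.trans (min_le_left _ _), (hB j).1.2.trans (min_le_left _ _)⟩, (hB j).2⟩
  have hBε : ∀ j, Bx ε (B j) ∧ 0 < (B j).2 := fun j =>
    ⟨⟨(hBb j).1.1.trans (by linarith), (hBb j).1.2.trans (by linarith)⟩, (hB j).2⟩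
  have hBm : ∀ j, (B j).2 ≤ m / 4 := fun j =>
    (le_abs_self _).trans ((hB j).1.2.trans (min_le_right _ _))
  -- the second coordinates decay geometrically
  have hBgeo : ∀ n, (B n).2 ≤ ε * (θ⁻¹) ^ n := by
    intro n
    induction n with
    | zero =>
      have := (le_abs_self _).trans (hBε 0).1.2
      simpa using this
    | succ n ih =>
      have h2 : θ * (B (n + 1)).2 ≤ (B n).2 := by
        rw [← hTB n, h.T2 _ (hBε (n + 1)).1]
        exact mul_le_mul_of_nonneg_right (h.lf1 _ (hBε (n + 1)).1) (hB (n + 1)).2.le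
      have hθ0 : 0 < θ := by linarith
      have h3 : (B (n + 1)).2 ≤ θ⁻¹ * (B n).2 := by
        rw [inv_mul_eq_div, le_div_iff₀ hθ0]
        linarith
      calc (B (n + 1)).2 ≤ θ⁻¹ * (B n).2 := h3
        _ ≤ θ⁻¹ * (ε * (θ⁻¹) ^ n) := mul_le_mul_of_nonneg_left ih (by positivity)
        _ = ε * (θ⁻¹) ^ (n + 1) := by rw [pow_succ]; ring
  -- the parameters
  have hex : ∀ n, ∃ t, 0 < t ∧ t ≤ r ∧ (W t).2 = (B n).2 := by
    intro n
    have h1 : Tendsto (fun t => (W t).2) (𝓝[>] 0) (𝓝 0) := by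
      have := (continuous_snd.tendsto ((1 : ℝ), (0 : ℝ))).comp hW0
      exact this
    have h2 : ∀ᶠ t in 𝓝[>] (0 : ℝ), (W t).2 < (B n).2 := h1.eventually_lt_const (hB n).2
    have h3 : ∀ᶠ t in 𝓝[>] (0 : ℝ), t ∈ Ioo 0 r := Ioo_mem_nhdsGT hr
    obtain ⟨t₁, ht₁, ht₁'⟩ := (h2.and h3).exists
    have hsub : Icc t₁ r ⊆ Ioc 0 r := fun t ht => ⟨ht₁'.1.trans_le ht.1, ht.2⟩
    have h4 := intermediate_value_Icc ht₁'.2.le (hW2.mono hsub)
    have h5 : (B n).2 ≤ (W r).2 := by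
      have := hmW r hrμ le_rfl
      linarith [hBm n]
    obtain ⟨t, ht, hteq⟩ := h4 ⟨ht₁.le, h5⟩
    exact ⟨t, (hsub ht).1, (hsub ht).2, hteq⟩
  choose t ht0 htr htB using hex
  have hd : Tendsto (fun n : ℕ => C * (n + 1) * |(W (t n)).1 - (B n).1|) atTop (𝓝 0) := by
    have h1 : ∀ n : ℕ, |(W (t n)).1 - (B n).1| ≤
        2 * (L / (θ ^ 2 - 1)) * (ε ^ 2 * ((θ⁻¹) ^ 2) ^ n) := by
      intro n
      have h2 := hWrate (t n) (ht0 n) (htr n)
      have h3 := h.rate hTB hBε hBlim n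
      rw [htB n] at h2
      have h4 : (B n).2 ^ 2 ≤ ε ^ 2 * ((θ⁻¹) ^ 2) ^ n := by
        have h5 := pow_le_pow_left₀ (hB n).2.le (hBgeo n) 2
        rw [mul_pow, ← pow_mul, mul_comm n 2, pow_mul] at h5
        exact h5
      have h6 : 0 ≤ L / (θ ^ 2 - 1) := div_nonneg hL hθ2.le
      have h7 : |(W (t n)).1 - (B n).1| ≤ |(W (t n)).1 - 1| + |(B n).1 - 1| := by
        have := abs_sub_le (W (t n)).1 1 (B n).1
        rw [abs_sub_comm 1 (B n).1] at this
        exact this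
      have h8 := mul_le_mul_of_nonneg_left h4 h6
      linarith
    have hθi : (θ⁻¹) ^ 2 < 1 := by
      have h2 : 0 < θ⁻¹ := by positivity
      have h3 : θ⁻¹ < 1 := inv_lt_one_of_one_lt₀ hθ
      nlinarith
    have h2 : Tendsto (fun n : ℕ => (n : ℝ) * ((θ⁻¹) ^ 2) ^ n) atTop (𝓝 0) :=
      tendsto_self_mul_const_pow_of_lt_one (by positivity) hθi
    have h3 : Tendsto (fun n : ℕ => ((θ⁻¹) ^ 2) ^ n) atTop (𝓝 0) :=
      tendsto_pow_atTop_nhds_zero_of_lt_one (by positivity) hθi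
    have h4 := ((h2.add h3).const_mul (C * (2 * (L / (θ ^ 2 - 1))) * ε ^ 2))
    rw [add_zero, mul_zero] at h4
    refine squeeze_zero (fun n => by positivity) (fun n => ?_) h4
    have h5 := mul_le_mul_of_nonneg_left (h1 n) (show (0 : ℝ) ≤ C * (n + 1) by positivity)
    refine h5.trans (le_of_eq ?_)
    ring
  have hεm : 0 < min ε₀ (m / 4) := lt_min hε₀ (by positivity)
  have hev : ∀ᶠ n : ℕ in atTop, C * (n + 1) * |(W (t n)).1 - (B n).1| ≤ min ε₀ (m / 4) :=
    (hd.eventually_lt_const hεm).mono fun n hn => hn.le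
  -- the end points
  have hkey : ∀ n : ℕ, C * (n + 1) * |(W (t n)).1 - (B n).1| ≤ min ε₀ (m / 4) → μ ^ n * t n ≤ r ∧
      dist (W (μ ^ n * t n)) (B 0) ≤ C * (n + 1) * |(W (t n)).1 - (B n).1| := by
    intro n hn
    have hcj : ∀ j ≤ n, |(T^[j] (W (t n))).1 - (B (n - j)).1| ≤
          C * (n + 1) * |(W (t n)).1 - (B n).1| ∧
        |(T^[j] (W (t n))).2 - (B (n - j)).2| ≤ C * (n + 1) * |(W (t n)).1 - (B n).1| := by
      intro j hj
      have e : n - j + j = n := by omega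
      have hjn : C * ((j : ℝ) + 1) * |(W (t n)).1 - (B n).1| ≤
          C * (n + 1) * |(W (t n)).1 - (B n).1| := by
        have : (j : ℝ) ≤ (n : ℝ) := by exact_mod_cast hj
        gcongr
      obtain ⟨-, h2, h3⟩ := hcmp j (fun i => B (n - j + i)) (W (t n))
        (fun i _ => hTB (n - j + i)) (fun i _ => hBb _) (hWb (t n) (ht0 n) (htr n)).1
        (by simp only [e]; exact htB n)
        (by simp only [e]; exact hjn.trans (hn.trans (min_le_left _ _)))
      simp only [e, add_zero] at h2 h3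
      exact ⟨h2.trans hjn, h3.trans hjn⟩
    have hind : ∀ j ≤ n, μ ^ j * t n ≤ r ∧ T^[j] (W (t n)) = W (μ ^ j * t n) := by
      intro j
      induction j with
      | zero => intro _; simp [htr n]
      | succ j ih =>
        intro hj
        obtain ⟨h4, h5⟩ := ih (by omega)
        have hpos : 0 < μ ^ j * t n := mul_pos (pow_pos hμ0 j) (ht0 n)
        have h6 : μ * (μ ^ j * t n) ≤ r := by
          by_contra hcon
          push Not at hcon
          have h7 : r / μ ≤ μ ^ j * t n := by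
            rw [div_le_iff₀ hμ0]
            linarith
          have h8 := hmW _ h7 h4
          have h9 := (hcj j (by omega)).2
          rw [h5] at h9
          have h10 := hBm (n - j)
          have h11 := (le_abs_self _).trans (h9.trans (hn.trans (min_le_right _ _)))
          linarith
        refine ⟨by rw [pow_succ']; linarith [mul_assoc μ (μ ^ j) (t n)], ?_⟩
        rw [Function.iterate_succ_apply', h5, ← hWs _ hpos h6, pow_succ', mul_assoc]
    obtain ⟨h4, h5⟩ := hind n le_rfl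
    refine ⟨h4, ?_⟩
    obtain ⟨h2, h3⟩ := hcj n le_rfl
    rw [Nat.sub_self] at h2 h3
    rw [← h5, Prod.dist_eq, Real.dist_eq, Real.dist_eq]
    exact max_le h2 h3
  -- compactness
  obtain ⟨N, hN⟩ := eventually_atTop.mp hev
  have hs : ∀ n, μ ^ (n + N) * t (n + N) ∈ Icc 0 r := fun n =>
    ⟨(mul_pos (pow_pos hμ0 _) (ht0 _)).le, (hkey _ (hN _ (by omega))).1⟩
  obtain ⟨s, hsI, φ, hφ, hlim⟩ := isCompact_Icc.tendsto_subseq hs
  have hdist : Tendsto (fun k => W (μ ^ (φ k + N) * t (φ k + N))) atTop (𝓝 (B 0)) := by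
    rw [tendsto_iff_dist_tendsto_zero]
    refine squeeze_zero (fun k => dist_nonneg) (fun k => (hkey _ (hN _ (by omega))).2) ?_
    have h1 : Tendsto (fun k => φ k + N) atTop atTop :=
      tendsto_atTop_mono (fun k => Nat.le_add_right _ _) hφ.tendsto_atTop
    exact hd.comp h1
  rcases hsI.1.eq_or_lt with hs0 | hs0
  · exfalso
    have h1 : Tendsto (fun k => μ ^ (φ k + N) * t (φ k + N)) atTop (𝓝[>] 0) := by
      rw [tendsto_nhdsWithin_iff]
      refine ⟨?_, Eventually.of_forall fun k => mul_pos (pow_pos hμ0 _) (ht0 _)⟩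
      rw [hs0]
      exact hlim
    have h2 := tendsto_nhds_unique (hW0.comp h1) hdist
    have h3 := (hB 0).2
    rw [← h2] at h3
    exact lt_irrefl _ h3
  · refine ⟨s, hs0, hsI.2, ?_⟩
    have h1 : Tendsto (fun k => μ ^ (φ k + N) * t (φ k + N)) atTop (𝓝[Ioc 0 r] s) := by
      rw [tendsto_nhdsWithin_iff]
      exact ⟨hlim, Eventually.of_forall fun k =>
        ⟨mul_pos (pow_pos hμ0 _) (ht0 _), (hkey _ (hN _ (by omega))).1⟩⟩
    exact tendsto_nhds_unique ((hW s ⟨hs0, hsI.2⟩).tendsto.comp h1) hdist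

end EQN
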